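import Mathlib
import Pool.Agent.Helper15.RT.QDefs
import Pool.Agent.Helper15.RT.VP

/-!
# The full twist in the path model
-/

open Finset
open scoped Real

namespace Pool.Agent.Helper24.RTF

open Pool.Agent.Helper15.AllN Pool.Agent.Helper15.RT

theorem pa_F_add {ι : Type*} [DecidableEq ι] {t : ℂ} {F : ι → ℂ} {x y : ι} (h : x ≠ y)
    (hF : F x ≠ F y) : pa t F x y * F x + pa t F y x * F y = 0 := by
  rw [pa, pa, if_neg h, if_neg h.symm]
  have h1 : F x - F y ≠ 0 := sub_ne_zero.2 hF
  have h2 : F y - F x ≠ 0 := sub_ne_zero.2 hF.symm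
  field_simp
  ring

theorem pa_sq_F {ι : Type*} [DecidableEq ι] {t : ℂ} (ht : t ≠ 0) {F : ι → ℂ} {x y : ι}
    (h : x ≠ y) (hF : F x ≠ F y) :
    pa t F x y * pa t F x y * F x + pb t F x y * pb t F y x * F y = F y := by
  have h1 := pa_sq ht (F := F) (x := x) (y := y) (fun _ => hF)
  have h2 : pa t F x y * (F x - F y) = -(t - t⁻¹) * F y := by
    rw [pa, if_neg h]
    exact div_mul_cancel₀ _ (sub_ne_zero.2 hF)
  linear_combination F y * h1 + pa t F x y * h2

theorem two_mul_apply {W : Type*} [Fintype W] [DecidableEq W] (a b : W → ℂ) (s : W → W)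
    (Y : Matrix W W ℂ) (w w' : W) :
    (two a b s * Y) w w' = a w * Y w w' + b w * Y (s w) w' := by
  rw [Matrix.mul_apply]
  simp only [two, add_mul, ite_mul, zero_mul, Finset.sum_add_distrib, Finset.sum_ite_eq',
    Finset.mem_univ, if_true]

variable {N r n : ℕ}

/-- the eigenvalue -/
noncomputable def lam (N r : ℕ) (c : Fin N → ℕ) (x : Fin N) : ℂ :=
  q r ^ (2 * ((c x : ℤ) - ((N : ℤ) - 1)))

theorem lam_eq (N r : ℕ) (c : Fin N → ℕ) (x : Fin N) :
    lam N r c x = q r ^ (-(2 * ((N : ℤ) - 1))) * spec r c x := by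
  rw [lam, spec, ← zpow_natCast, ← zpow_add₀ (q_ne_zero r)]
  congr 1
  push_cast
  ring

theorem first_letter (hn : 0 < n) {w : Fin n → Fin N} (hw : good r (vac N) w) :
    ((w ⟨0, hn⟩ : Fin N) : ℕ) = N - 1 := by
  by_contra hne
  have hlt : ((w ⟨0, hn⟩ : Fin N) : ℕ) + 1 < N := by
    have := (w ⟨0, hn⟩).isLt
    omega
  have h1 := hw 1 hn
  rw [show (1 : ℕ) = 0 + 1 from rfl, cfg_succ _ w hn, cfg_zero] at h1
  have h2 : w ⟨0, hn⟩ ≠ ⟨(w ⟨0, hn⟩ : ℕ) + 1, hlt⟩ := by
    intro h
    have := congrArg Fin.val h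
    simp only at this
    omega
  refine h1 _ _ h2 ?_
  rw [Pi.add_apply, Pi.add_apply, Pi.single_eq_same, Pi.single_eq_of_ne h2.symm]
  simp only [vac, add_zero]
  exact Nat.ModEq.refl _

theorem rep_JM (hr : 0 < r) : ∀ (j : ℕ) (hj : j < n) (w w' : Fin n → Fin N),
    good r (vac N) w → (pathModel N r).rep (vac N) n (JM X j) w w' =
      if w = w' then lam N r (cfg (vac N) w j) (w ⟨j, hj⟩) else 0 := by
  classical
  intro j
  induction j with
  | zero =>
    intro hj w w' hw
    have h1 : JM X 0 = (1 : FA) := rfl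
    rw [h1, map_one, Matrix.one_apply]
    by_cases h : w = w'
    · rw [if_pos h, if_pos h, cfg_zero, lam]
      have h2 := first_letter hj hw
      have h3 : 0 < N := lt_of_le_of_lt (Nat.zero_le _) (w ⟨0, hj⟩).isLt
      have h4 : ((vac N (w ⟨0, hj⟩) : ℕ) : ℤ) = (N : ℤ) - 1 := by
        rw [vac, h2]
        push_cast [Nat.cast_sub h3]
        ring
      rw [h4, sub_self, mul_zero, zpow_zero]
    · rw [if_neg h, if_neg h]
  | succ j ih =>
    intro hj w w' hw
    have hq := q_ne_zero r
    have hj' : j < n := by omega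
    have h1 : JM X (j + 1) = X j * JM X j * X j := rfl
    rw [h1, map_mul, map_mul, Model.rep_X, mul_assoc]
    set B := (pathModel N r).rep (vac N) n (JM X j) with hB
    have hBA : ∀ (Y : Matrix (Fin n → Fin N) (Fin n → Fin N) ℂ) (u u' : Fin n → Fin N),
        good r (vac N) u → (B * Y) u u' =
          lam N r (cfg (vac N) u j) (u ⟨j, hj'⟩) * Y u u' := by
      intro Y u u' hu
      rw [Matrix.mul_apply]
      have h2 : ∀ v, B u v = if u = v then lam N r (cfg (vac N) u j) (u ⟨j, hj'⟩) else 0 :=
        fun v => ih hj' u v hu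
      simp only [h2, ite_mul, zero_mul, Finset.sum_ite_eq, Finset.mem_univ, if_true]
    rw [pathModel_mat, Pmat, dif_pos hj, two_mul_apply, if_pos hw]
    set A := two (fun w => if good r (vac N) w then
        pa (q r) (spec r (cfg (vac N) w j)) (w ⟨j, by omega⟩) (w ⟨j + 1, hj⟩) else q r)
      (fun w => if good r (vac N) w ∧ good r (vac N) (sw j w) then
        pb (q r) (spec r (cfg (vac N) w j)) (w ⟨j, by omega⟩) (w ⟨j + 1, hj⟩) else 0) (sw j)
      with hA
    rw [hBA A w w' hw]
    set c := cfg (vac N) w j with hc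
    set x := w ⟨j, hj'⟩ with hx
    set y := w ⟨j + 1, hj⟩ with hy
    have hcs : cfg (vac N) (sw j w) j = c := cfg_sw_of_le _ w hj le_rfl
    have e1 : sw j w ⟨j, hj'⟩ = y := sw_fst hj w
    have e2 : sw j w ⟨j + 1, hj⟩ = x := sw_snd hj w
    have hcfg : cfg (vac N) w (j + 1) = c + Pi.single x 1 := cfg_succ _ w hj'
    have hA1 : ∀ u u', A u u' = (if u' = u then (if good r (vac N) u then
        pa (q r) (spec r (cfg (vac N) u j)) (u ⟨j, by omega⟩) (u ⟨j + 1, hj⟩) else q r) else 0) +
        (if u' = sw j u then (if good r (vac N) u ∧ good r (vac N) (sw j u) then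
        pb (q r) (spec r (cfg (vac N) u j)) (u ⟨j, by omega⟩) (u ⟨j + 1, hj⟩) else 0) else 0) :=
      fun u u' => rfl
    by_cases hxy : x = y
    · -- equal letters
      have hsw : sw j w = w := sw_self hj hxy
      have hb : pb (q r) (spec r c) x y = 0 := by rw [pb, if_pos hxy]
      have ha : pa (q r) (spec r c) x y = q r := by rw [pa, if_pos hxy]
      rw [hA1 w w', hsw]
      simp only [hw, and_self, ← hc, ← hx, ← hy, hb, ha, ite_self, zero_mul, add_zero]
      rw [hcfg, lam_eq, lam_eq, spec_add]
      by_cases h : w' = w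
      · rw [if_pos h, if_pos h.symm, ← hxy]
        simp only [sh, if_true]
        ring
      · rw [if_neg h, if_neg (Ne.symm h)]
        ring
    · -- different letters
      have hFne : spec r c x ≠ spec r c y := goodc_ne hr (hw j (by omega)) hxy
      have hswne : sw j w ≠ w := by
        intro h
        apply hxy
        have := congrFun h ⟨j, hj'⟩
        rw [e1] at this
        exact this.symm
      have hlam : lam N r (cfg (vac N) w (j + 1)) y = lam N r c y := by
        rw [hcfg, lam, lam, Pi.add_apply, Pi.single_eq_of_ne (Ne.symm hxy), add_zero]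
      rw [hlam]
      by_cases hs : good r (vac N) (sw j w)
      · have A1 : A w w' = (if w' = w then pa (q r) (spec r c) x y else 0) +
            (if w' = sw j w then pb (q r) (spec r c) x y else 0) := by
          rw [hA1]
          simp only [hw, hs, and_self, if_true, ← hc, ← hx, ← hy]
        have A2 : A (sw j w) w' = (if w' = sw j w then pa (q r) (spec r c) y x else 0) +
            (if w' = w then pb (q r) (spec r c) y x else 0) := by
          rw [hA1]
          simp only [hw, hs, and_self, if_true, sw_sw, hcs, e1, e2]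
        rw [if_pos (And.intro hw hs), hBA A _ _ hs, hcs, e1, A1, A2]
        by_cases h : w' = w
        · have h' : ¬ w' = sw j w := fun h2 => hswne (by rw [← h2, h])
          simp only [if_pos h, if_neg h', if_pos h.symm, add_zero, zero_add]
          have key := pa_sq_F hq hxy hFne
          rw [lam_eq, lam_eq]
          linear_combination (q r ^ (-(2 * ((N : ℤ) - 1)))) * key
        · by_cases h' : w' = sw j w
          · simp only [if_neg h, if_pos h', if_neg (Ne.symm h), add_zero, zero_add]
            have key := pa_F_add (t := q r) hxy hFne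
            rw [lam_eq, lam_eq]
            linear_combination (q r ^ (-(2 * ((N : ℤ) - 1)))) * pb (q r) (spec r c) x y * key
          · simp only [if_neg h, if_neg h', if_neg (Ne.symm h), add_zero, mul_zero]
      · have hng : ¬ (good r (vac N) w ∧ good r (vac N) (sw j w)) := fun h => hs h.2
        rw [if_neg hng, zero_mul, add_zero, hA1 w w', if_pos hw, if_neg hng]
        simp only [← hc, ← hx, ← hy, ite_self, add_zero]
        by_cases h : w' = w
        · rw [if_pos h, if_pos h.symm]
          have h3 := (not_iff_not.2 (good_sw_iff hw hj hxy)).1 hs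
          rw [not_not] at h3
          have h4 := pb_eq_zero hr h3
          have key := pa_sq_F hq hxy hFne
          simp only [← hc, ← hx, ← hy] at h4
          rw [h4, mul_zero, zero_mul, add_zero] at key
          rw [lam_eq, lam_eq]
          linear_combination (q r ^ (-(2 * ((N : ℤ) - 1)))) * key
        · rw [if_neg h, if_neg (Ne.symm h)]
          ring

theorem Theta_step (c : Fin N → ℕ) (x : Fin N) :
    Theta N r (c + Pi.single x 1) = Theta N r c * lam N r c x := by
  rw [Theta, Theta, lam, ← zpow_add₀ (q_ne_zero r)]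
  congr 1
  have h1 : ∀ i, (((c + Pi.single x 1 : Fin N → ℕ) i : ℕ) : ℤ) = (c i : ℤ) + (if i = x then 1 else 0) := by
    intro i
    rw [Pi.add_apply, Pi.single_apply]
    split_ifs <;> simp
  have h2 : ∑ i, (((c + Pi.single x 1 : Fin N → ℕ) i : ℕ) : ℤ) = ∑ i, (c i : ℤ) + 1 := by
    rw [Finset.sum_congr rfl fun i _ => h1 i, Finset.sum_add_distrib]
    simp
  have h3 : ∑ i, (((c + Pi.single x 1 : Fin N → ℕ) i : ℕ) : ℤ) ^ 2 = ∑ i, (c i : ℤ) ^ 2 + (2 * c x + 1) := by
    have h4 : ∀ i, (((c + Pi.single x 1 : Fin N → ℕ) i : ℕ) : ℤ) ^ 2 =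
        (c i : ℤ) ^ 2 + (if i = x then 2 * (c i : ℤ) + 1 else 0) := by
      intro i
      rw [h1]
      split_ifs <;> ring
    rw [Finset.sum_congr rfl fun i _ => h4 i, Finset.sum_add_distrib]
    simp
  rw [h2, h3]
  ring

theorem Theta_vac : Theta N r (vac N) = 1 := by
  rw [Theta]
  simp [vac]

theorem rep_FT' (hr : 0 < r) : ∀ (k : ℕ), k ≤ n → ∀ (w w' : Fin n → Fin N),
    good r (vac N) w → (pathModel N r).rep (vac N) n (FT X k) w w' =
      if w = w' then Theta N r (cfg (vac N) w k) else 0 := by
  classical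
  intro k
  induction k with
  | zero =>
    intro _ w w' _
    have h1 : FT X 0 = (1 : FA) := rfl
    rw [h1, map_one, Matrix.one_apply, cfg_zero, Theta_vac]
  | succ k ih =>
    intro hk w w' hw
    have h1 : FT X (k + 1) = FT X k * JM X k := rfl
    rw [h1, map_mul, Matrix.mul_apply]
    have h2 : ∀ v, (pathModel N r).rep (vac N) n (FT X k) w v =
      if w = v then Theta N r (cfg (vac N) w k) else 0 := fun v => ih (by omega) w v hw
    simp only [h2, ite_mul, zero_mul, Finset.sum_ite_eq, Finset.mem_univ, if_true]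
    rw [rep_JM hr k (by omega) w w' hw, mul_ite, mul_zero, cfg_succ _ w (by omega : k < n),
      Theta_step]

theorem rep_FT {N r : ℕ} (hN : 0 < N) (hNr : N ≤ r) (n : ℕ) (w w' : Fin n → Fin N)
    (hw : (pathModel N r).good (vac N) w) :
    (pathModel N r).rep (vac N) n (FT X n) w w' =
      if w = w' then Theta N r (cfg (vac N) w n) else 0 :=
  rep_FT' (by omega) n le_rfl w w' hw

end Pool.Agent.Helper24.RTF
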